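import Pool.Agent.Lib.MP_919f0c_an.Det.Main

open scoped ENNReal
open Pool.Agent.MixedBesov

/-- Q1 on the line `r = min (1/2) (1 - 1/θ)`, `p < ∞`: the upper bound
`m^{-r} (log m)^{(d-1)(1 - 1/θ)} (log log m)^{(d-1)(1+r)}`. -/
theorem Pool.Agent.Results.MP_919f0c_an.Q1Critical.result (𝕜 : Type*) [RCLike 𝕜] (d k : ℕ)
    (hd : 1 ≤ d) (r : ℝ) (p θ : ℝ≥0∞) (hp : 2 ≤ p) (hp' : p < ∞) (hθ : 1 ≤ θ)
    (hr : (1 / p).toReal < r) (he : r = min (1 / 2) (1 - (1 / θ).toReal)) (hk : r < k) :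
    ∃ C : ℝ, 0 < C ∧ ∃ m₀ : ℕ, ∀ m : ℕ, m₀ ≤ m →
      samplingNumber (besovBall 𝕜 d k r p θ) p m ≤
        ENNReal.ofReal (C * ((m : ℝ) ^ (-r) *
          Real.log m ^ (((d : ℝ) - 1) * (1 - (1 / θ).toReal)) *
          Real.log (Real.log m) ^ (((d : ℝ) - 1) * (1 + r)))) := by
  have h3 : 2 ≤ p.toReal := by simpa using ENNReal.toReal_mono hp'.ne hp
  have H := Pool.Agent.Lib.MP_919f0c_an.Det.upper_large 𝕜 hd hk h3 hθ hr
  rwa [if_pos he, max_eq_right (a := r + _) (by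
    rw [he]; simp only [max_def, min_def]; split_ifs <;> linarith)] at H
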