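import Pool.Agent.Lib.MP_919f0c_an.Det.Main

open scoped ENNReal
open Pool.Agent.MixedBesov

/-- Q1 off the line `r = min (1 - u) (1 - 1/θ)`: the right order is
`m^{-r} (log m)^{(d-1) max (r + (u - 1/θ)_+) (1 - 1/θ)}`, where `u = max (1/p) (1/2)` for `p < ∞`
and `u = 1` for `p = ∞`. -/
theorem Pool.Agent.Results.MP_919f0c_an.Q1Order.result (𝕜 : Type*) [RCLike 𝕜] (d k : ℕ)
    (hd : 1 ≤ d) (r : ℝ) (p θ : ℝ≥0∞) (hp : 1 ≤ p) (hθ : 1 ≤ θ) (h1 : 1 < p ∨ 1 < θ)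
    (hr : (1 / p).toReal < r) (hk : r < k) (u : ℝ)
    (hu : u = if p = ∞ then 1 else max (1 / p).toReal (1 / 2))
    (hne : r ≠ min (1 - u) (1 - (1 / θ).toReal)) :
    ∃ c C : ℝ, 0 < c ∧ 0 < C ∧ ∃ m₀ : ℕ, ∀ m : ℕ, m₀ ≤ m →
      ENNReal.ofReal (c * ((m : ℝ) ^ (-r) * Real.log m ^ (((d : ℝ) - 1) *
        max (r + max (u - (1 / θ).toReal) 0) (1 - (1 / θ).toReal)))) ≤
        samplingNumber (besovBall 𝕜 d k r p θ) p m ∧
      samplingNumber (besovBall 𝕜 d k r p θ) p m ≤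
        ENNReal.ofReal (C * ((m : ℝ) ^ (-r) * Real.log m ^ (((d : ℝ) - 1) *
          max (r + max (u - (1 / θ).toReal) 0) (1 - (1 / θ).toReal)))) := by
  have hr0 : 0 < r := ENNReal.toReal_nonneg.trans_lt hr
  subst hu
  by_cases hp' : p = ∞
  · have h2 : (1 / θ).toReal ≤ 1 := by
      simpa using ENNReal.toReal_mono ENNReal.one_ne_top (show 1 / θ ≤ 1 by simpa using hθ)
    rw [if_pos hp', max_eq_left (a := 1 - _) (by linarith), max_eq_left (by linarith),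
      ← add_sub_assoc]
    obtain ⟨c, hc, m₁, h₁⟩ := lower_bound 𝕜 d k hd r p θ (Or.inr hp') hθ hr0 hk
    obtain ⟨C, hC, m₂, h₂⟩ :=
      Pool.Agent.Lib.MP_919f0c_an.Up.upper_bound 𝕜 d k hd r p θ (Or.inr hp') hθ hr hk
    exact ⟨c, C, hc, hC, max m₁ m₂, fun m hm =>
      ⟨h₁ m (le_of_max_le_left hm), h₂ m (le_of_max_le_right hm)⟩⟩
  rw [if_neg hp'] at hne ⊢
  rcases le_or_gt 2 p with h2 | h2
  · have h3 : 2 ≤ p.toReal := by simpa using ENNReal.toReal_mono hp' h2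
    have h4 : (1 / p).toReal ≤ 1 / 2 := by simpa using inv_anti₀ two_pos h3
    rw [max_eq_right h4] at hne ⊢
    obtain ⟨c, hc, m₁, h₁⟩ := Pool.Agent.Lib.MP_919f0c_an.Det.lower_large 𝕜 hd hr0 hk h3 hθ
    obtain ⟨C, hC, m₂, h₂⟩ := Pool.Agent.Lib.MP_919f0c_an.Det.upper_large 𝕜 hd hk h3 hθ hr
    rw [if_neg (by rwa [sub_half] at hne)] at h₂
    simp only [mul_zero, Real.rpow_zero, mul_one] at h₂
    exact ⟨c, C, hc, hC, max m₁ m₂, fun m hm =>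
      ⟨h₁ m (le_of_max_le_left hm), h₂ m (le_of_max_le_right hm)⟩⟩
  have h4 : 1 / 2 ≤ (1 / p).toReal := by
    simpa using ENNReal.toReal_mono (by simpa using (zero_lt_one.trans_le hp).ne')
      (ENNReal.inv_le_inv.2 h2.le)
  rw [max_eq_left h4, max_eq_left (by
    linarith [le_max_left ((1 / p).toReal - (1 / θ).toReal) 0])]
  exact Pool.Agent.Lib.MP_919f0c_an.Det.small 𝕜 hd hk hp h2 hθ hr
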