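import Pool.Agent.Lib.MP_919f0c_an.LowerMain
import Pool.Agent.Lib.MP_919f0c_an.UpMain

open scoped ENNReal
open Pool.Agent.MixedBesov

/-- Q2: the right order of the sampling numbers of `B^r_{1,1}` in `L_1` is
`m^{-r} (log m)^{(d-1) r}`, in every dimension. -/
theorem Pool.Agent.Results.MP_919f0c_an.Q2Order.result (𝕜 : Type*) [RCLike 𝕜] (d k : ℕ)
    (hd : 1 ≤ d) (r : ℝ) (hr : 1 < r) (hk : r < k) :
    ∃ c C : ℝ, 0 < c ∧ 0 < C ∧ ∃ m₀ : ℕ, ∀ m : ℕ, m₀ ≤ m →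
      ENNReal.ofReal (c * ((m : ℝ) ^ (-r) * Real.log m ^ (((d : ℝ) - 1) * r))) ≤
        samplingNumber (besovBall 𝕜 d k r 1 1) 1 m ∧
      samplingNumber (besovBall 𝕜 d k r 1 1) 1 m ≤
        ENNReal.ofReal (C * ((m : ℝ) ^ (-r) * Real.log m ^ (((d : ℝ) - 1) * r))) := by
  obtain ⟨c, hc, m₁, h₁⟩ := lower_bound 𝕜 d k hd r 1 1 (Or.inl rfl) le_rfl (by linarith) hk
  obtain ⟨C, hC, m₂, h₂⟩ := Pool.Agent.Lib.MP_919f0c_an.Up.upper_bound 𝕜 d k hd r 1 1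
    (Or.inl rfl) le_rfl (by simpa using hr) hk
  refine ⟨c, C, hc, hC, max m₁ m₂, fun m hm => ⟨?_, ?_⟩⟩
  · simpa using h₁ m (le_of_max_le_left hm)
  · simpa using h₂ m (le_of_max_le_right hm)
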